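import Pool.Agent.Q50.CF.Lie

/-!
# A common rational form of the monodromy Lie algebras is a question on Tate tensors of degree four
-/

namespace Pool.Agent.Results.MP_e965d0_ag.CommonFormInDegreeFour

open Pool.Agent.Q50.CF

/-- For a system of semisimple `ℓ`-adic representations on a rational vector space such that the
centres of the Lie algebras have a common rational form, the following are equivalent: the Lie
algebras have a common rational form, the Tate tensors of degree four have a common rational form,
and the Tate tensors of every even degree have a common rational form. -/
theorem result {n : ℕ} {Γ : Type} [Group Γ] [TopologicalSpace Γ] [IsTopologicalGroup Γ]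
    [CompactSpace Γ] (S : LadicSystem n Γ) (hc : S.CommonCentre) :
    List.TFAE [S.CommonLie, S.CommonForms 2, ∀ m, S.CommonForms m] :=
  main S hc

end Pool.Agent.Results.MP_e965d0_ag.CommonFormInDegreeFour
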