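import Mathlib
import Pool.Agent.Q43.HQ.MT
import Pool.Agent.TH170.FT.CommonDefs

/-!
# Common `ℚ`-form of the `ℓ`-adic monodromy groups of abelian varieties with a Frobenius element which
is separated by the Galois closures

Let `A` be an abelian variety over a number field, of any dimension and with arbitrary
endomorphisms, which has good reduction at some place `v`, with a residue field of `q = p ^ a`
elements. Suppose that the characteristic polynomial of the Frobenius element at this **one** place is
the product of the minimal polynomials of Weil numbers `π i` that generate CM fields `K i`
(`HasFrobenius`), of any slopes; so `2 dim A` is the sum of the degrees of the `K i`. We assume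
(`IsSeparated`)

* (`generated`) the powers of `π i` generate `K i`;
* (`typed`) the degree of `K i` is two, or it is four and `K i` contains no imaginary quadratic field,
  or it is twice an odd prime number, or it is larger than four and there is an odd function `s` on
  the set of complex embeddings of `K i`, on which the automorphisms of `ℂ` act by signs (possibly
  `s = 0`), such that the odd functions orthogonal to `s` are an irreducible representation over `ℚ`
  of the group of automorphisms of `ℂ` (for instance if the Galois group of `K i` is large, or if `K i`
  is cyclic of 2-power degree);
* (`closure`) the Galois closures of `K i` and `K k`, `i ≠ k`, are different if both fields have degree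
  at least four;
* (`quadratic`) no imaginary quadratic field is contained in two of the fields `K i`, and the norm of
  `π i` to an imaginary quadratic subfield of `K i` is not a power of the square root of `q`, up to a
  root of unity.

For example, the characteristic polynomial can be a product of irreducible polynomials of degrees
`2 g i`, `g i` different odd prime numbers, such that the fields `K i` contain no imaginary quadratic
fields, and of polynomials of degree two of ordinary elliptic curves with different CM fields.

**The theorem.** Let `A` be such an abelian variety, and `ℓ₀` such that the Frobenius element has this
characteristic polynomial for the primes `ℓ ≥ ℓ₀` (so `ℓ₀ > p`). For all prime numbers `ℓ ≥ ℓ₀` and all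
`m` each `ℓ`-adic Tate class in `(H^1)^{⊗ 2 m}(m)` is a linear combination, with coefficients in `ℚ_ℓ`,
of rational forms on `W = H_1(A, ℚ)` which are Tate classes for all prime numbers `≥ ℓ₀` and products
of Hodge classes of degree two (`HasCommonForm`). The identity component of the Zariski closure of the
image of the Galois group is reductive and contains the homotheties; it is the group of the elements of
`GSp` which fix all Tate classes. So there is an algebraic group over `ℚ` (the identity component of the
Lefschetz group) which becomes the connected monodromy group over `ℚ_ℓ` for all `ℓ ≥ ℓ₀`; this
translation is the one of the starting files and it is not formalized.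

In the formal statement (starting files) `per` is the inclusion of `W` in the tangent space, `ω₀`
the form given by a polarization, and `D ℓ` (`GaloisData`) consists of the action of the Galois
group on the rational Tate module `ℚ_ℓ ⊗ W`, the cyclotomic character, the Weil pairing, the
theorems of Faltings on endomorphisms and on semisimplicity (`IsRealization`) and the theorem of
Deligne that Hodge classes are Tate classes.

**The main point** is that the only multiplicative relations between the conjugates of the `π i` and `q`
are the trivial ones `π * conj π = q`, up to roots of unity: the angle rank is maximal
(`Pool.Agent.Q43.HQ.maximalAngleRank`). Let `L` be the Galois closure of all `K i`, `c` the complex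
conjugation, and let `T i` be the equivariant map from the embeddings `φ` of `K i` to the
representation `ℚ ⊗ L^×` of the Galois group which takes `φ` to the class of `φ(π i)^2 / q`. A relation
is `∑ v i φ T i φ = 0` with odd functions `v i`. If the Galois group does not act on `v i` by signs then
for each element `κ` of the Galois group which acts nontrivially on `K i` there is a translate `v'` of
`v i` such that it does not act by signs on `v' - v' ∘ κ`. So all `k` for which `K i` is not in the
Galois closure of `K k` are removed from the relation one after another; those whose Galois closure is
strictly larger are removed by averaging. There remains a relation to which the other fields contribute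
elements on which the group acts by signs; the commutators and the elements of odd order fix them, and
one finds that the Galois group acts on all `φ(π i)^2 / q` by signs, so that the degree of `K i` is two.
Hence `v i = 0`, or `v i` comes from an imaginary quadratic subfield of `K i`, and then the norm of
`π i` to this field satisfies a relation.
-/

set_option autoImplicit false

namespace Pool.Agent.Results.MP_e965d0_ag.SeparatedFrobenius

open NumberField Module Pool.Agent.TH170.FT Pool.Agent.Q43.HQ

/-- **Common `ℚ`-form of the `ℓ`-adic monodromy groups of abelian varieties with one Frobenius element
whose Weil numbers are separated by the Galois closures of their fields.** -/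
theorem result (p : ℕ) [Fact p.Prime] (a : ℕ) (ha : 0 < a) (I : Type) [Fintype I] (K : I → Type)
    [∀ i, Field (K i)] [∀ i, NumberField (K i)] [∀ i, IsCMField (K i)] (π : ∀ i, K i)
    (hw : ∀ i, π i * IsCMField.complexConj (K i) (π i) = (p : K i) ^ a)
    (hs : IsSeparated (p ^ a) K π) (W T Γ : Type) [AddCommGroup W] [Module ℚ W]
    [FiniteDimensional ℚ W] [AddCommGroup T] [Module ℂ T] [Group Γ] (per : W →+ T)
    (ω₀ : W →ₗ[ℚ] W →ₗ[ℚ] ℚ) (D : ∀ (ℓ : ℕ) [Fact ℓ.Prime], GaloisData per ω₀ Γ ℓ) (ℓ₀ : ℕ)
    (hF : ∀ (ℓ : ℕ) [Fact ℓ.Prime], ℓ₀ ≤ ℓ → HasFrobenius (D ℓ).ρ (D ℓ).χ p a π) :
    HasCommonForm D ℓ₀ :=
  hasCommonForm_of D ℓ₀ fun ℓ _ hℓ => mumfordTate_separated ha hw hs (D ℓ).realization (hF ℓ hℓ)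

end Pool.Agent.Results.MP_e965d0_ag.SeparatedFrobenius
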